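import Pool.Agent.Lib_helper10.T2.Defs
import Pool.Agent.Lib_helper10.T2.DefsE

/-!
# T2, package A (entropy decrement along consecutive primitive vectors): definitions
(MP_892e4c_nt)
-/

namespace Pool.Agent.T2

open Filter Topology

/-! the interface with package B -/

open Classical in
/-- the pairs of primitive elements of determinant `D`, in the ratio window, at the scale `4^k` -/
noncomputable def PW (α β : ℝ) (D k : ℕ) : Finset (G × G) :=
  ((PB ((4 : ℝ) ^ (k + 1))) ×ˢ (PB (((4 : ℝ) ^ (k + 1) / α) ^ 2 + (D : ℝ) ^ 2))).filter (fun t =>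
    det t.1 t.2 = D ∧ 0 < ip t.1 t.2 ∧ 4 ^ k ≤ nn t.1 ∧ nn t.1 < 4 ^ (k + 1) ∧
      α * (ip t.1 t.2 : ℝ) < (nn t.1 : ℝ) ∧ (nn t.1 : ℝ) ≤ β * (ip t.1 t.2 : ℝ))

/-- the correlation of determinant `D` at the scale `4^k` -/
noncomputable def BD (α β : ℝ) (D k : ℕ) : ℝ :=
  ∑ t ∈ PW α β D k, gl t.1 * gl t.2 / (ip t.1 t.2 : ℝ)

/-- the primes `1 mod 4` in `(P, 2P]` -/
def PP (P : ℕ) : Finset ℕ := (Finset.Ioc P (2 * P)).filter (fun p => p.Prime ∧ p % 4 = 1)

open Classical in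
/-- the part of `BD` in which the first element is divisible by `pel p` -/
noncomputable def BDp (α β : ℝ) (p k : ℕ) : ℝ :=
  ∑ t ∈ (PW α β p k).filter (fun t => pel p ∣ t.1), gl t.1 * gl t.2 / (ip t.1 t.2 : ℝ)

/-! conditional entropy of functions on a finite set -/

open Classical in
/-- the size of the fibre of `h` through `x` -/
noncomputable def fb {α σ : Type*} (Ω : Finset α) (h : α → σ) (x : α) : ℕ :=
  (Ω.filter (fun y => h y = h x)).card

/-- the entropy of `f` given `h` (uniform distribution on `Ω`) -/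
noncomputable def cE {α φ σ : Type*} (Ω : Finset α) (f : α → φ) (h : α → σ) : ℝ :=
  (1 / (Ω.card : ℝ)) *
    ∑ x ∈ Ω, Real.log ((fb Ω h x : ℝ) / (fb Ω (fun y => (f y, h y)) x : ℝ))

/-- the word of length `L` along an orbit -/
def Wd {α σ : Type*} (T : α → α) (s : α → σ) (L : ℕ) (x : α) : Fin L → σ :=
  fun i => s (T^[(i : ℕ)] x)

open Classical in
/-- the total distance between the distribution of `y` given `h` and the uniform distribution
on `∏ E i` (not divided by the size of `Ω`) -/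
noncomputable def TV {α σ ι τ : Type*} [Fintype ι] (Ω : Finset α) (h : α → σ) (y : α → ι → τ)
    (E : ι → Finset τ) : ℝ :=
  ∑ x ∈ Ω, ∑ t ∈ Fintype.piFinset E,
    |((Ω.filter (fun z => h z = h x ∧ y z = t)).card : ℝ) / (fb Ω h x : ℝ) -
      1 / ((Fintype.piFinset E).card : ℝ)|

/-! the next primitive element -/

/-- the primitive elements of norm at most `Y` -/
noncomputable def PN (Y : ℕ) : Finset G := PB (Y : ℝ)

open Classical in
/-- the next primitive element (in angular order) -/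
noncomputable def nx (Y : ℕ) (u : G) : G :=
  if h : ∃ w : G, w ∈ PN Y ∧ det u w = 1 ∧ ∀ w' ∈ PN Y, det u w' = 1 → ip u w' ≤ ip u w
    then h.choose else u

/-- the iterates of `nx` -/
noncomputable def it (Y i : ℕ) (u : G) : G := (nx Y)^[i] u

/-- the partial quotient: `nx (nx u) = kk u * nx u - u` -/
noncomputable def kk (Y : ℕ) (u : G) : ℤ := det u (nx Y (nx Y u))

/-- the cell of the norm -/
def ce (N Y : ℕ) (u : G) : ℕ := N * nn u / Y

/-- the letter of an element -/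
noncomputable def ltr (N Y : ℕ) (u : G) : ℤ × ℕ := (kk Y u, ce N Y u)

open Classical in
/-- the sign of the Liouville function of the norm -/
noncomputable def sgb (u : G) : Bool := decide (0 < gl u)

/-- the frame of an element modulo the primes of `Q` -/
noncomputable def fr (Q : Finset ℕ) (Y : ℕ) (u : G) : Q → ℤ × ℤ :=
  fun p => (det (pel (p : ℕ)) u % ((p : ℕ) : ℤ), det (pel (p : ℕ)) (nx Y u) % ((p : ℕ) : ℤ))

/-- the nonzero vectors modulo `p` -/
noncomputable def Ep (p : ℕ) : Finset (ℤ × ℤ) :=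
  (Finset.Ico (0 : ℤ) (p : ℤ) ×ˢ Finset.Ico (0 : ℤ) (p : ℤ)).erase (0, 0)

/-- the pairs of determinant `1` with a given frame, in a box -/
def RegF (Q : Finset ℕ) (t : Q → ℤ × ℤ) (a b ξ₁ ξ₂ Y : ℝ) : Set (G × G) :=
  {s | det s.1 s.2 = 1 ∧
    (∀ p : Q, det (pel (p : ℕ)) s.1 % ((p : ℕ) : ℤ) = (t p).1 ∧
      det (pel (p : ℕ)) s.2 % ((p : ℕ) : ℤ) = (t p).2) ∧
    a * Y < (nn s.1 : ℝ) ∧ (nn s.1 : ℝ) ≤ b * Y ∧
    ξ₁ * (nn s.1 : ℝ) ≤ (ip s.1 s.2 : ℝ) ∧ (ip s.1 s.2 : ℝ) < ξ₂ * (nn s.1 : ℝ)}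

/-- good points: the orbit stays away from the boundaries -/
def Gd (N L D : ℕ) (a δ : ℝ) (Y : ℕ) (u : G) : Prop :=
  a * (Y : ℝ) ≤ (nn u : ℝ) ∧ ∀ i ≤ L + 1, |kk Y (it Y i u)| ≤ (D : ℤ) ∧
    (∀ j : ℤ, δ < |(N : ℝ) * (nn (it Y i u) : ℝ) / (Y : ℝ) - (j : ℝ)|) ∧
    (1 + δ) * (Y : ℝ) < (nn (it Y i u + it Y (i + 1) u) : ℝ)

open Classical in
/-- the quantised weight -/
noncomputable def wt (α β : ℝ) (B N c₁ c₂ : ℕ) : ℝ :=
  if N ≤ B * c₁ ∧ B * c₁ < 4 * N ∧ N ≤ B ^ 2 * c₂ ∧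
      α * Real.sqrt ((c₁ : ℝ) * (c₂ : ℝ)) < (c₁ : ℝ) ∧
      (c₁ : ℝ) ≤ β * Real.sqrt ((c₁ : ℝ) * (c₂ : ℝ))
    then (N : ℝ) / Real.sqrt ((c₁ : ℝ) * (c₂ : ℝ)) else 0

/-- the quantised correlation of determinant `p` at an element -/
noncomputable def FH (α β : ℝ) (B N L Y p : ℕ) (u : G) : ℝ :=
  ∑ m ∈ Finset.Icc 1 (L / 2), if det u (it Y m u) = (p : ℤ) then
    wt α β B N (ce N Y u) (ce N Y (it Y m u)) * (gl u * gl (it Y m u)) else 0

open Classical in
/-- the weight `(p + 1) [pel p ∣ u] - 1` -/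
noncomputable def th (p : ℕ) (u : G) : ℝ := (if pel p ∣ u then (p : ℝ) + 1 else 0) - 1

/-- tame points: the window of length `L` is not much longer than the average window -/
def Tm (B N M L Y : ℕ) (u : G) : Prop := ∀ i j : ℕ, i < j → j < L →
  N ≤ B * ce N Y (it Y i u) → N ≤ B * ce N Y (it Y j u) →
  det (it Y i u) (it Y j u) ≤ ((M * L : ℕ) : ℤ)

open Classical in
/-- the observable of a word and a frame -/
noncomputable def Ph (α β : ℝ) (B N M L Y p : ℕ) (u : G) (t : ℤ × ℤ) : ℝ :=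
  if Tm B N M L Y u then (1 / ((L / 2 : ℕ) : ℝ)) * ∑ a ∈ Finset.range (L / 2),
    FH α β B N L Y p (it Y a u) *
      ((if (p : ℤ) ∣ det (it Y a u) (nx Y u) * t.1 + det u (it Y a u) * t.2
        then (p : ℝ) + 1 else 0) - 1)
  else 0

/-- the mutual information of the signs and the frames, given the letters -/
noncomputable def MI (Q : Finset ℕ) (N L Y : ℕ) : ℝ :=
  cE (PN Y) (Wd (nx Y) sgb L) (Wd (nx Y) (ltr N Y) L) -
    cE (PN Y) (Wd (nx Y) sgb L) (fun u => (fr Q Y u, Wd (nx Y) (ltr N Y) L u))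

end Pool.Agent.T2
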